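import Pool.Agent.H43.Tso3

open Pool.Agent.H43.Tso

namespace Pool.Agent.Results.MP_307271_an.OscBoth

theorem result :
    ∃ (X : Type) (_ : TopologicalSpace X) (F : X ≃ₜ X) (D : X → X → ℝ), Good F D ∧
      ∃ ε > 0, pLo F D ε < pUp F D ε ∧ sLo F D ε < sUp F D ε := by
  obtain ⟨D, a, b⟩ := q1
  exact ⟨_, _, σ, D, a, 1, one_pos, b⟩

end Pool.Agent.Results.MP_307271_an.OscBoth
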