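import Pool.Agent.H43.Tso3

open Pool.Agent.H43.Tso

namespace Pool.Agent.Results.MP_307271_an.SpanOnly

theorem result :
    ∃ (X : Type) (_ : TopologicalSpace X) (F : X ≃ₜ X) (D : X → X → ℝ), Good F D ∧
      (∃ ε > 0, pLo F D ε < pUp F D ε) ∧ ∀ δ > 0, sLo F D δ = sUp F D δ := by
  obtain ⟨D', a', b', c⟩ := q2
  exact ⟨_, _, σ, D', a', ⟨1, one_pos, b'⟩, c⟩

end Pool.Agent.Results.MP_307271_an.SpanOnly
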